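import Mathlib
import Pool.Agent.H38.AT.Stmt

/-!
# Equidistribution of admissible `n`-tuples ordered by radical: definitions

`MP_7ecdd4_nt`, `n = k + 1 ≥ 3`.  An admissible tuple `x` has `|x_1 ... x_n| = exc x * rd x`.
-/

set_option autoImplicit false

open Pool.Agent.H38.AE.Statement Pool.Agent.H38.AT

namespace Pool.Agent.H71.EQ

/-- the absolute value of the product of the entries -/
def pr {n : ℕ} (x : Fin n → ℤ) : ℕ := (∏ i, x i).natAbs

/-- the radical of the product of the entries -/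
def rd {n : ℕ} (x : Fin n → ℤ) : ℕ := radical (∏ i, x i)

/-- the excess: the quotient of the absolute value of the product by its radical -/
def exc {n : ℕ} (x : Fin n → ℤ) : ℕ := pr x / rd x

/-- the exponent `1 / n`, `n = k + 1` -/
noncomputable def nu (k : ℕ) : ℝ := 1 / ((k : ℝ) + 1)

/-- the vector with sum `0` with first entries `v` -/
def ext {k : ℕ} (v : Fin k → ℤ) : Fin (k + 1) → ℤ := Fin.snoc (α := fun _ => ℤ) v (-∑ i, v i)

/-- the real vector with sum `0` with first entries `z` -/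
def extR {k : ℕ} (z : Fin k → ℝ) : Fin (k + 1) → ℝ := Fin.snoc (α := fun _ => ℝ) z (-∑ i, z i)

/-- the absolute value of `z_1 ... z_k (z_1 + ... + z_k)` -/
def PR {k : ℕ} (z : Fin k → ℝ) : ℝ := |∏ i, extR z i|

/-- the normalised tuple `x / rad ^ (1 / n)` -/
noncomputable def nrm {k : ℕ} (x : Fin (k + 1) → ℤ) : Fin (k + 1) → ℝ :=
  fun i => (x i : ℝ) / (rd x : ℝ) ^ nu k

/-- the number of `m`-tuples of nonzero residues modulo `p` with sum `0` -/
noncomputable def cnt (m p : ℕ) : ℝ := (((p : ℝ) - 1) ^ m + (-1) ^ m * ((p : ℝ) - 1)) / p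

/-- the density of the tuples with sum `0` with at most one entry divisible by `p`, and this entry
divisible by `p ^ (j + 1)`, not by `p ^ (j + 2)` (for `j = 0` also: no entry divisible by `p`) -/
noncomputable def wloc (n p j : ℕ) : ℝ :=
  if j = 0 then (cnt n p + n * cnt (n - 1) p * (1 - 1 / (p : ℝ))) / (p : ℝ) ^ (n - 1)
  else n * cnt (n - 1) p * (1 - 1 / (p : ℝ)) / (p : ℝ) ^ j / (p : ℝ) ^ (n - 1)

/-- the density of the admissible `n`-tuples with excess `E` among all `n`-tuples with sum `0` -/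
noncomputable def wt (n E : ℕ) : ℝ := ∏' p : Nat.Primes, wloc n p (E.factorization p)

/-- the set of tuples which are counted: for `n = 3` all admissible triples with radical at most
`X`, for `n ≥ 4` those in the range of heights of `InRange` -/
def Tuples (k : ℕ) (ε ρ X : ℝ) : Set (Fin (k + 1) → ℤ) :=
  {x | Admissible x ∧ (rd x : ℝ) ≤ X ∧ (k = 2 ∨ InRange ε ρ X x)}

/-- the integral of `f` over `|y_1 ... y_n| = E`, `rad ≤ 1` -/
noncomputable def integ (k E : ℕ) (f : (Fin (k + 1) → ℝ) → ℝ) : ℝ :=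
  ∫ z in {z : Fin k → ℝ | PR z ≤ 1}, f (fun i => (E : ℝ) ^ nu k * PR z ^ (-nu k) * extR z i)

/-- the limit: the integral of `f` with respect to the limit measure -/
noncomputable def limitValue (k : ℕ) (f : (Fin (k + 1) → ℝ) → ℝ) : ℝ :=
  ∑' E : ℕ, wt (k + 1) E * (E : ℝ) ^ (1 - nu k) * integ k E f

/-! ## auxiliary sets -/

/-- the local condition at `p`: no two entries divisible by `p`; `p ^ j` exactly divides the
excess -/
def Loc {n : ℕ} (p j : ℕ) (x : Fin n → ℤ) : Prop :=
  (∀ a b, a ≠ b → ¬ ((p : ℤ) ∣ x a ∧ (p : ℤ) ∣ x b)) ∧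
    (if j = 0 then ∀ a, ¬ ((p : ℤ) ^ 2 ∣ x a)
      else ∃ a, (p : ℤ) ^ (j + 1) ∣ x a ∧ ¬ ((p : ℤ) ^ (j + 2) ∣ x a))

/-- the vectors which give admissible tuples with excess `E` -/
def Fix (k E : ℕ) : Set (Fin k → ℤ) := {v | Admissible (ext v) ∧ exc (ext v) = E}

/-- the modulus for the primes up to `z` -/
def md (E z : ℕ) : ℕ :=
  ∏ p ∈ (Finset.range (z + 1)).filter Nat.Prime, p ^ (E.factorization p + 2)

/-- the product of the local densities at the primes up to `z` -/
noncomputable def wz (n E z : ℕ) : ℝ :=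
  ∏ p ∈ (Finset.range (z + 1)).filter Nat.Prime, wloc n p (E.factorization p)

/-- the region which corresponds to `SF` -/
def Reg (k E : ℕ) (κ lam : ℝ) : Set (Fin k → ℝ) :=
  {z | κ < PR z ∧ PR z ≤ 1 ∧ ∀ i, |extR z i| ≤ lam * (E : ℝ) ^ (-nu k)}

/-- the argument of `f` -/
noncomputable def arg {k : ℕ} (E : ℕ) (z : Fin k → ℝ) : Fin (k + 1) → ℝ :=
  fun i => (E : ℝ) ^ nu k * PR z ^ (-nu k) * extR z i

/-- the admissible tuples with excess `E`, radical in `(κ X, X]`, height at most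
`lam X ^ (1 / n)` -/
def SF (k E : ℕ) (κ lam X : ℝ) : Set (Fin (k + 1) → ℤ) :=
  {x | Admissible x ∧ exc x = E ∧ κ * X < (rd x : ℝ) ∧ (rd x : ℝ) ≤ X ∧
    (height x : ℝ) ≤ lam * X ^ nu k}

end Pool.Agent.H71.EQ
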