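import Mathlib
import Pool.Agent.H71.EQ.Defs
import Pool.Agent.H38.EQ.Targets
import Pool.Agent.H38.AG.Stmt

/-!
# Equidistribution of admissible `n`-tuples ordered by radical: targets

Every `T_XXX : Prop` is to be proved as a theorem `pf_XXX : T_XXX` in its own file
`Pool/Agent/H<nr>/EQ/XXX.lean`, other targets being hypotheses.  `n = k + 1 ≥ 3`.
The counting side (`CY`, ..., `TGT`) is in `Pool.Agent.H38.EQ.Targets`.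
-/

set_option autoImplicit false

open Pool.Agent.H38.AE.Statement Pool.Agent.H38.AT MeasureTheory Filter
open scoped Topology

namespace Pool.Agent.H71.EQ

/-! ## A. local densities -/

/-- CTP: tuples with sum `0` modulo `p`. -/
def T_CTP : Prop := ∀ k p : ℕ, 1 ≤ k → p.Prime →
  (({v : Fin k → ZMod p | (∀ i, v i ≠ 0) ∧ ∑ i, v i ≠ 0}.ncard : ℝ) = cnt (k + 1) p) ∧
  (∀ i : Fin k, ({v : Fin k → ZMod p | v i = 0 ∧ (∀ j, j ≠ i → v j ≠ 0) ∧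
    ∑ j, v j ≠ 0}.ncard : ℝ) = cnt k p) ∧
  (({v : Fin k → ZMod p | (∀ i, v i ≠ 0) ∧ ∑ i, v i = 0}.ncard : ℝ) = cnt k p)

/-- PER: the local condition is periodic. -/
def T_PER : Prop := ∀ (k p j : ℕ) (v u : Fin k → ℤ),
  Loc p j (ext fun i => v i + (p : ℤ) ^ (j + 2) * u i) ↔ Loc p j (ext v)

/-- LOC: the local density. -/
def T_LOC : Prop := ∀ k p j : ℕ, 1 ≤ k → p.Prime →
  ({v : Fin k → ZMod (p ^ (j + 2)) | Loc p j (ext fun i => ((v i).val : ℤ))}.ncard : ℝ) =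
    wloc (k + 1) p j * ((p : ℝ) ^ (j + 2)) ^ k

/-- CHR: admissible tuples with excess `E` are described by the local conditions. -/
def T_CHR : Prop := ∀ (n : ℕ) (x : Fin n → ℤ) (E : ℕ), 1 ≤ E → (∀ i, x i ≠ 0) → ∑ i, x i = 0 →
  ((Admissible x ∧ exc x = E) ↔ ∀ p : ℕ, p.Prime → Loc p (E.factorization p) x)

/-- CRM: the Chinese remainder theorem. -/
def T_CRM : Prop := ∀ k E z : ℕ, 1 ≤ k → 1 ≤ E →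
  ({v : Fin k → ZMod (md E z) | ∀ p : ℕ, p.Prime → p ≤ z →
    Loc p (E.factorization p) (ext fun i => ((v i).val : ℤ))}.ncard : ℝ) =
    wz (k + 1) E z * (md E z : ℝ) ^ k

/-- PRD: the product of the local densities. -/
def T_PRD : Prop := ∀ k E : ℕ, 2 ≤ k → 1 ≤ E →
  (Multipliable fun p : Nat.Primes => wloc (k + 1) p (E.factorization p)) ∧
  Tendsto (fun z : ℕ => wz (k + 1) E z) atTop (𝓝 (wt (k + 1) E)) ∧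
  0 ≤ wt (k + 1) E ∧ 0 < wt (k + 1) 1 ∧
  ∀ p j : ℕ, p.Prime → 0 ≤ wloc (k + 1) p j ∧ wloc (k + 1) p j ≤ 1 ∧ 0 < wloc (k + 1) p 0

/-- LPR: large primes. -/
def T_LPR : Prop := ∀ k : ℕ, 2 ≤ k → ∃ C : ℝ, 0 < C ∧ ∀ (z : ℕ) (R : ℝ), 1 ≤ z → 1 ≤ R →
  {v : Fin k → ℤ | (∀ i, ext v i ≠ 0 ∧ |(ext v i : ℝ)| ≤ R) ∧
    ∃ p : ℕ, p.Prime ∧ z < p ∧ ¬ Loc p 0 (ext v)}.Finite ∧
  ({v : Fin k → ℤ | (∀ i, ext v i ≠ 0 ∧ |(ext v i : ℝ)| ≤ R) ∧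
    ∃ p : ℕ, p.Prime ∧ z < p ∧ ¬ Loc p 0 (ext v)}.ncard : ℝ) ≤ C * R ^ k / z

/-- FXG: Riemann sums over the admissible tuples with excess `E`. -/
def T_FXG : Prop := ∀ k E : ℕ, 2 ≤ k → 1 ≤ E → ∀ (g : (Fin k → ℝ) → ℝ) (M B : ℝ),
  (∀ z, |g z| ≤ M) → (∀ z, g z ≠ 0 → ∀ i, extR z i ≠ 0 ∧ |extR z i| ≤ B) →
  (∀ᵐ z : Fin k → ℝ, ContinuousAt g z) →
  Tendsto (fun R : ℝ => (R ^ k)⁻¹ * ∑' v : Fin k → ℤ,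
    (Fix k E).indicator (fun v => g (fun i => (v i : ℝ) / R)) v) atTop
    (𝓝 (wt (k + 1) E * ∫ z, g z))

/-! ## B. volumes and the main regions -/

/-- NUL: null sets. -/
def T_NUL : Prop := ∀ k : ℕ, 1 ≤ k → ∀ c : ℝ, volume {z : Fin k → ℝ | PR z = c} = 0 ∧
  volume {z : Fin k → ℝ | ∃ i, |extR z i| = c} = 0

/-- VFN: the volume is finite. -/
def T_VFN : Prop := ∀ k : ℕ, 2 ≤ k → volume {z : Fin k → ℝ | PR z ≤ 1} < ⊤ ∧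
  ∃ κ lam : ℝ, 0 < κ ∧ κ < 1 ∧ 1 ≤ lam ∧ 0 < volume (Reg k 1 κ lam)

/-- FEL: the limit for given excess, on the main region. -/
def T_FEL : Prop := ∀ (k E : ℕ) (κ lam : ℝ), 2 ≤ k → 1 ≤ E → 0 < κ → κ < 1 → 1 ≤ lam →
  ∀ f : (Fin (k + 1) → ℝ) → ℝ, Continuous f → (∃ B : ℝ, ∀ y, |f y| ≤ B) →
  (∀ X : ℝ, (SF k E κ lam X).Finite) ∧
  Tendsto (fun X : ℝ => X ^ (-(1 - nu k)) * ∑ᶠ x ∈ SF k E κ lam X, f (nrm x)) atTop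
    (𝓝 (wt (k + 1) E * (E : ℝ) ^ (1 - nu k) * ∫ z in Reg k E κ lam, f (arg E z)))

/-! ## D. excess, small radical, reduction -/

/-- EXC: the excess. -/
def T_EXC : Prop := ∀ (n : ℕ) (x : Fin n → ℤ), (∀ i, x i ≠ 0) →
  1 ≤ pr x ∧ 1 ≤ rd x ∧ 1 ≤ exc x ∧ pr x = rd x * exc x ∧
  (exc x : ℝ) = Pool.Agent.H82.AS.ex (Pool.Agent.H38.EQ.pr x)

/-- AT3: the landed result for triples. -/
def T_AT3 : Prop := ∀ ε : ℝ, 0 < ε → ∃ δ C : ℝ, 0 < δ ∧ 0 < C ∧ ∀ X : ℝ, 1 ≤ X →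
  (Pool.Agent.H38.AG.Violators (1 / 3 + ε) X).Finite ∧
  ((Pool.Agent.H38.AG.Violators (1 / 3 + ε) X).ncard : ℝ) ≤ C * X ^ (2 / 3 - δ)

/-- ATN: the landed result for `n`-tuples. -/
def T_ATN : Prop := ∀ n : ℕ, 3 ≤ n → ∀ ε : ℝ, 0 < ε → ∃ ρ δ C : ℝ, 0 < ρ ∧ 0 < δ ∧ 0 < C ∧
  ∀ X : ℝ, 2 ≤ X → (Pool.Agent.H38.AT.Violators n (1 / n + ε) ε ρ X).Finite ∧
  ((Pool.Agent.H38.AT.Violators n (1 / n + ε) ε ρ X).ncard : ℝ) ≤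
    C * X ^ (1 - 1 / (n : ℝ) - δ)

/-- RED: reduction to height at most `X ^ (1 / n + ε₀)`. -/
def T_RED : Prop := ∀ (k : ℕ) (ε ε₀ : ℝ), 2 ≤ k → 0 < ε → ε < 1 → 0 < ε₀ →
  ∃ ρ δ C : ℝ, 0 < ρ ∧ 0 < δ ∧ 0 < C ∧ ∀ X : ℝ, 3 ≤ X →
  (Tuples k ε ρ X).Finite ∧
  ({x | x ∈ Tuples k ε ρ X ∧ X ^ (nu k + ε₀) < (height x : ℝ)}.ncard : ℝ) ≤
    C * X ^ (1 - nu k - δ)

/-- CTB: the number of tuples of small height. -/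
def T_CTB : Prop := ∀ k : ℕ, 2 ≤ k → ∃ ε₀ C : ℝ, 0 < ε₀ ∧ 0 < C ∧ ∀ X : ℝ, 1 ≤ X →
  {x : Fin (k + 1) → ℤ | Admissible x ∧ (rd x : ℝ) ≤ X ∧
    (height x : ℝ) ≤ X ^ (nu k + ε₀)}.Finite ∧
  ({x : Fin (k + 1) → ℤ | Admissible x ∧ (rd x : ℝ) ≤ X ∧
    (height x : ℝ) ≤ X ^ (nu k + ε₀)}.ncard : ℝ) ≤ C * X ^ (1 - nu k)

/-- SMR: tuples with small radical. -/
def T_SMR : Prop := ∀ k : ℕ, 2 ≤ k → ∃ ε₁ C : ℝ, 0 < ε₁ ∧ 0 < C ∧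
  ∀ κ : ℝ, 0 < κ → κ ≤ 1 → ∀ᶠ X : ℝ in atTop,
  {x : Fin (k + 1) → ℤ | Admissible x ∧ (rd x : ℝ) ≤ κ * X ∧
    (height x : ℝ) ≤ X ^ (nu k + ε₁)}.Finite ∧
  ({x : Fin (k + 1) → ℤ | Admissible x ∧ (rd x : ℝ) ≤ κ * X ∧
    (height x : ℝ) ≤ X ^ (nu k + ε₁)}.ncard : ℝ) ≤ C * (κ * X) ^ (1 - nu k)

/-! ## E. the limit -/

/-- SUM: the sum over the excess converges. -/
def T_SUM : Prop := ∀ k : ℕ, 2 ≤ k → Summable fun E : ℕ => wt (k + 1) E * (E : ℝ) ^ (1 - nu k)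

/-- RHS: the limit value is approximated by the main regions. -/
def T_RHS : Prop := ∀ k : ℕ, 2 ≤ k → ∀ f : (Fin (k + 1) → ℝ) → ℝ, Continuous f →
  (∃ B : ℝ, ∀ y, |f y| ≤ B) → ∀ η : ℝ, 0 < η → ∃ Y₀ : ℕ, ∀ Y : ℕ, Y₀ ≤ Y →
  ∃ κ₀ lam₀ : ℝ, 0 < κ₀ ∧ κ₀ < 1 ∧ 1 ≤ lam₀ ∧ ∀ κ lam : ℝ, 0 < κ → κ ≤ κ₀ → lam₀ ≤ lam →
  |∑ E ∈ Finset.Icc 1 Y, wt (k + 1) E * (E : ℝ) ^ (1 - nu k) *
    (∫ z in Reg k E κ lam, f (arg E z)) - limitValue k f| ≤ η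

/-- LHS: the counted tuples are approximated by the sets `SF`. -/
def T_LHS : Prop := ∀ (k : ℕ) (ε : ℝ), 2 ≤ k → 0 < ε → ε < 1 → ∃ ρ : ℝ, 0 < ρ ∧
  (∀ X : ℝ, 3 ≤ X → (Tuples k ε ρ X).Finite) ∧
  ∀ η : ℝ, 0 < η → ∃ Y₀ : ℕ, ∀ Y : ℕ, Y₀ ≤ Y →
  ∃ κ₀ lam₀ : ℝ, 0 < κ₀ ∧ κ₀ < 1 ∧ 1 ≤ lam₀ ∧ ∀ κ lam : ℝ, 0 < κ → κ ≤ κ₀ → lam₀ ≤ lam →
  ∀ᶠ X : ℝ in atTop, (∀ E ∈ Finset.Icc 1 Y, SF k E κ lam X ⊆ Tuples k ε ρ X) ∧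
    ((Tuples k ε ρ X \ ⋃ E ∈ Finset.Icc 1 Y, SF k E κ lam X).ncard : ℝ) ≤
      η * X ^ (1 - nu k)

/-- LIM: the limit. -/
def T_LIM : Prop := ∀ (k : ℕ) (ε : ℝ), 2 ≤ k → 0 < ε → ε < 1 → ∃ ρ : ℝ, 0 < ρ ∧
  (∀ X : ℝ, 3 ≤ X → (Tuples k ε ρ X).Finite) ∧
  ∀ f : (Fin (k + 1) → ℝ) → ℝ, Continuous f → (∃ B : ℝ, ∀ y, |f y| ≤ B) →
  Tendsto (fun X : ℝ => X ^ (-(1 - nu k)) * ∑ᶠ x ∈ Tuples k ε ρ X, f (nrm x)) atTop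
    (𝓝 (limitValue k f))

/-- KAP: the total mass as an Euler product. -/
def T_KAP : Prop := ∀ k : ℕ, 2 ≤ k →
  HasProd (fun p : Nat.Primes => (cnt (k + 1) p + ((k : ℝ) + 1) * cnt k p *
    ∑ j ∈ Finset.range (k + 1), ((p : ℕ) : ℝ) ^ (-((j : ℝ) * nu k))) / ((p : ℕ) : ℝ) ^ k)
    (∑' E : ℕ, wt (k + 1) E * (E : ℝ) ^ (1 - nu k)) ∧
  0 < ∑' E : ℕ, wt (k + 1) E * (E : ℝ) ^ (1 - nu k)

end Pool.Agent.H71.EQ
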