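import Mathlib
import Pool.Agent.H71.EQ.Targets

/-!
# The limit measure
-/

set_option autoImplicit false

open Pool.Agent.H38.AE.Statement Pool.Agent.H38.AT MeasureTheory Filter
open scoped Topology ENNReal

namespace Pool.Agent.H71.EQ

/-- the limit measure on `ℝ ^ n`, `n = k + 1`: the sum over `E ≥ 1` of `wt n E * E ^ (1 - 1 / n)`
times the image of Lebesgue measure on `|z_1 ... z_k (z_1 + ... + z_k)| ≤ 1` under
`z ↦ E ^ (1 / n) |z_1 ... z_n| ^ (-1 / n) (z_1, ..., z_n)`, `z_n = -(z_1 + ... + z_k)` -/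
noncomputable def limitMeasure (k : ℕ) : Measure (Fin (k + 1) → ℝ) :=
  Measure.sum fun E : ℕ => ENNReal.ofReal (wt (k + 1) E * (E : ℝ) ^ (1 - nu k)) •
    Measure.map (arg E) (volume.restrict {z : Fin k → ℝ | PR z ≤ 1})

lemma measurable_extR {k : ℕ} (i : Fin (k + 1)) : Measurable fun z : Fin k → ℝ => extR z i := by
  unfold extR
  refine Fin.lastCases ?_ (fun j => ?_) i
  · simp only [Fin.snoc_last]
    exact (Finset.measurable_sum _ (fun j _ => measurable_pi_apply j)).neg
  · simp only [Fin.snoc_castSucc]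
    exact measurable_pi_apply j

lemma measurable_PR {k : ℕ} : Measurable fun z : Fin k → ℝ => PR z := by
  unfold PR
  exact (Finset.measurable_prod _ (fun i _ => measurable_extR i)).abs

lemma measurable_arg {k : ℕ} (E : ℕ) : Measurable fun z : Fin k → ℝ => arg E z := by
  refine measurable_pi_lambda _ (fun i => ?_)
  unfold arg
  exact ((measurable_const.mul (measurable_PR.pow_const _))).mul (measurable_extR i)

lemma measurableSet_PR {k : ℕ} : MeasurableSet {z : Fin k → ℝ | PR z ≤ 1} :=
  measurableSet_le measurable_PR measurable_const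

/-- MEA: the limit measure. -/
def T_MEA : Prop := ∀ k : ℕ, 2 ≤ k → IsFiniteMeasure (limitMeasure k) ∧
  (limitMeasure k).real Set.univ = volume.real {z : Fin k → ℝ | PR z ≤ 1} *
    ∑' E : ℕ, wt (k + 1) E * (E : ℝ) ^ (1 - nu k) ∧
  0 < (limitMeasure k).real Set.univ ∧
  ∀ f : (Fin (k + 1) → ℝ) → ℝ, Continuous f → (∃ B : ℝ, ∀ y, |f y| ≤ B) →
    ∫ y, f y ∂(limitMeasure k) = limitValue k f

theorem pf_MEA (h1 : T_VFN) (h2 : T_SUM) (h3 : T_PRD) (h4 : T_KAP) : T_MEA := by
  intro k hk
  obtain ⟨hfin, κ, lam, hκ, hκ1, hlam, hpos⟩ := h1 k hk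
  have hs := h2 k hk
  have hw : ∀ E : ℕ, 0 ≤ wt (k + 1) E * (E : ℝ) ^ (1 - nu k) := by
    intro E
    rcases Nat.eq_zero_or_pos E with h | h
    · subst h
      have hnu : (1 : ℝ) - nu k ≠ 0 := by
        unfold nu
        have : (0 : ℝ) < k := by exact_mod_cast (by omega : 0 < k)
        have h1 : (1 : ℝ) / ((k : ℝ) + 1) < 1 := by
          rw [div_lt_one (by positivity)]; linarith
        linarith
      rw [Nat.cast_zero, Real.zero_rpow hnu, mul_zero]
    · exact mul_nonneg (h3 k E hk h).2.2.1 (Real.rpow_nonneg (Nat.cast_nonneg _) _)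
  have hmapuniv : ∀ E : ℕ, Measure.map (arg E)
      (volume.restrict {z : Fin k → ℝ | PR z ≤ 1}) Set.univ = volume {z : Fin k → ℝ | PR z ≤ 1} := by
    intro E
    rw [Measure.map_apply (measurable_arg E) MeasurableSet.univ, Set.preimage_univ,
      Measure.restrict_apply_univ]
  have htot : limitMeasure k Set.univ = ENNReal.ofReal (∑' E : ℕ, wt (k + 1) E * (E : ℝ) ^ (1 - nu k)) *
      volume {z : Fin k → ℝ | PR z ≤ 1} := by
    unfold limitMeasure
    rw [Measure.sum_apply _ MeasurableSet.univ]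
    simp only [Measure.smul_apply, smul_eq_mul, hmapuniv]
    rw [ENNReal.tsum_mul_right, ENNReal.ofReal_tsum_of_nonneg hw hs]
  have hF : IsFiniteMeasure (limitMeasure k) := by
    refine ⟨?_⟩
    rw [htot]
    exact ENNReal.mul_lt_top ENNReal.ofReal_lt_top hfin
  have hreal : (limitMeasure k).real Set.univ = volume.real {z : Fin k → ℝ | PR z ≤ 1} *
      ∑' E : ℕ, wt (k + 1) E * (E : ℝ) ^ (1 - nu k) := by
    unfold Measure.real
    rw [htot, ENNReal.toReal_mul, ENNReal.toReal_ofReal (tsum_nonneg hw), mul_comm]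
  refine ⟨hF, hreal, ?_, ?_⟩
  · rw [hreal]
    refine mul_pos ?_ (h4 k hk).2
    unfold Measure.real
    refine ENNReal.toReal_pos ?_ hfin.ne
    refine (lt_of_lt_of_le hpos (measure_mono ?_)).ne'
    intro z hz
    exact hz.2.1
  · intro f hf hB
    obtain ⟨B, hB⟩ := hB
    have hint : Integrable f (limitMeasure k) := by
      refine Integrable.of_bound hf.aestronglyMeasurable B (Eventually.of_forall (fun y => ?_))
      rw [Real.norm_eq_abs]; exact hB y
    unfold limitMeasure at hint ⊢
    rw [integral_sum_measure hint]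
    unfold limitValue
    refine tsum_congr (fun E => ?_)
    rw [integral_smul_measure, ENNReal.toReal_ofReal (hw E),
      integral_map (measurable_arg E).aemeasurable hf.aestronglyMeasurable, smul_eq_mul]
    rfl

end Pool.Agent.H71.EQ
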