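import Mathlib
import Pool.Agent.H71.EQ.Meas

/-!
# The level sets of the normalised height are null sets
-/

set_option autoImplicit false

open Pool.Agent.H38.AE.Statement Pool.Agent.H38.AT MeasureTheory Filter
open scoped Topology ENNReal

namespace Pool.Agent.H71.EQ

/-- The zero set of a polynomial is a null set (as in `Pool.Agent.H14.UDB.GNR`). -/
theorem ae_fin : ∀ (n : ℕ) (p : MvPolynomial (Fin n) ℝ), p ≠ 0 →
    ∀ᵐ x : Fin n → ℝ, MvPolynomial.eval x p ≠ 0 := by
  intro n
  induction n with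
  | zero =>
    intro p hp
    refine Eventually.of_forall fun x hx => hp ?_
    have h1 := MvPolynomial.eq_C_of_isEmpty p
    rw [h1, MvPolynomial.eval_C] at hx
    rw [h1, hx, map_zero]
  | succ n ih =>
    intro p hp
    set f := MvPolynomial.finSuccEquiv ℝ n p with hf
    have hf0 : f ≠ 0 := by
      rw [hf]
      exact (MvPolynomial.finSuccEquiv ℝ n).map_ne_zero_iff.2 hp
    have h1 := ih f.leadingCoeff (Polynomial.leadingCoeff_ne_zero.2 hf0)
    have h2 : ∀ᵐ x : Fin n → ℝ, ∀ᵐ y : ℝ, MvPolynomial.eval (Fin.cons y x : Fin (n + 1) → ℝ) p ≠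
        0 := by
      filter_upwards [h1] with x hx
      have h3 : Polynomial.map (MvPolynomial.eval x) f ≠ 0 := by
        intro h
        apply hx
        have h4 := congrArg (fun q => Polynomial.coeff q f.natDegree) h
        simp only [Polynomial.coeff_map, Polynomial.coeff_zero] at h4
        exact h4
      have h5 : {y : ℝ | MvPolynomial.eval (Fin.cons y x : Fin (n + 1) → ℝ) p = 0}.Finite := by
        refine (Polynomial.rootSet_finite (Polynomial.map (MvPolynomial.eval x) f) ℝ).subset ?_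
        intro y hy
        rw [Polynomial.mem_rootSet]
        refine ⟨h3, ?_⟩
        rw [Polynomial.coe_aeval_eq_eval, ← MvPolynomial.eval_eq_eval_mv_eval']
        exact hy
      rw [ae_iff]
      simp only [ne_eq, not_not]
      exact h5.measure_zero _
    have hm : MeasurableSet {q : ℝ × (Fin n → ℝ) |
        MvPolynomial.eval (Fin.cons q.1 q.2 : Fin (n + 1) → ℝ) p = 0} := by
      have hc : Continuous fun q : ℝ × (Fin n → ℝ) =>
          MvPolynomial.eval (Fin.cons q.1 q.2 : Fin (n + 1) → ℝ) p :=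
        (MvPolynomial.continuous_eval p).comp (by fun_prop)
      exact (isClosed_eq hc continuous_const).measurableSet
    have h3 : ∀ᵐ q : ℝ × (Fin n → ℝ),
        MvPolynomial.eval (Fin.cons q.1 q.2 : Fin (n + 1) → ℝ) p ≠ 0 := by
      have h4 : ∀ᵐ q : (Fin n → ℝ) × ℝ,
          MvPolynomial.eval (Fin.cons q.2 q.1 : Fin (n + 1) → ℝ) p ≠ 0 := by
        refine (Measure.ae_prod_iff_ae_ae ?_).2 h2
        exact (hm.preimage measurable_swap).compl
      exact (Measure.measurePreserving_swap (μ := (volume : Measure ℝ))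
        (ν := (volume : Measure (Fin n → ℝ)))).quasiMeasurePreserving.ae h4
    have h4 := (volume_preserving_piFinSuccAbove (fun _ : Fin (n + 1) => ℝ)
      0).quasiMeasurePreserving.ae h3
    filter_upwards [h4] with x hx
    have h5 : (Fin.cons (x 0) (fun i => x (Fin.succ i)) : Fin (n + 1) → ℝ) = x :=
      Fin.cons_self_tail x
    have h6 : MvPolynomial.eval (Fin.cons (x 0) (fun i => x (Fin.succ i)) :
      Fin (n + 1) → ℝ) p ≠ 0 := hx
    rwa [h5] at h6


/-- the entries as polynomials -/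
noncomputable def entP (k : ℕ) (i : Fin (k + 1)) : MvPolynomial (Fin k) ℝ :=
  Fin.snoc (α := fun _ => MvPolynomial (Fin k) ℝ) (fun j => MvPolynomial.X j)
    (-∑ j, MvPolynomial.X j) i

lemma eval_entP {k : ℕ} (z : Fin k → ℝ) (i : Fin (k + 1)) :
    MvPolynomial.eval z (entP k i) = extR z i := by
  unfold entP extR
  refine Fin.lastCases ?_ (fun j => ?_) i
  · simp [Fin.snoc_last]
  · simp [Fin.snoc_castSucc]

/-- DIS: the level sets of the entries of `arg E z` are null sets. -/
def T_DIS : Prop := ∀ (k E : ℕ) (t : ℝ), 2 ≤ k → 1 ≤ E →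
  volume {z : Fin k → ℝ | ∃ i, |arg E z i| = t} = 0

lemma exists_point {k : ℕ} (hk : 2 ≤ k) (i : Fin (k + 1)) :
    ∃ z : Fin k → ℝ, extR z i ≠ 0 ∧ ∃ j, extR z j = 0 := by
  have key : ∀ a b : Fin k, a ≠ b → extR (Pi.single a (1 : ℝ)) (Fin.castSucc a) = 1 ∧
      extR (Pi.single a (1 : ℝ)) (Fin.castSucc b) = 0 ∧
      extR (Pi.single a (1 : ℝ)) (Fin.last k) = -1 := by
    intro a b hab
    unfold extR
    refine ⟨?_, ?_, ?_⟩
    · simp [Fin.snoc_castSucc]
    · rw [Fin.snoc_castSucc]
      exact Pi.single_eq_of_ne (Ne.symm hab) _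
    · rw [Fin.snoc_last, Finset.sum_pi_single']
      simp
  have hex : ∀ a : Fin k, ∃ b : Fin k, a ≠ b := by
    intro a
    by_cases h : (a : ℕ) = 0
    · refine ⟨⟨1, by omega⟩, fun h' => ?_⟩
      rw [h'] at h
      simp at h
    · refine ⟨⟨0, by omega⟩, fun h' => ?_⟩
      rw [h'] at h
      simp at h
  refine Fin.lastCases ?_ (fun a => ?_) i
  · obtain ⟨b, hb⟩ := hex ⟨0, by omega⟩
    obtain ⟨h1, h2, h3⟩ := key _ b hb
    exact ⟨_, by rw [h3]; norm_num, _, h2⟩
  · obtain ⟨b, hb⟩ := hex a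
    obtain ⟨h1, h2, h3⟩ := key a b hb
    exact ⟨_, by rw [h1]; norm_num, _, h2⟩

theorem pf_DIS : T_DIS := by
  intro k E t hk hE
  have hnull : ∀ i : Fin (k + 1), volume {z : Fin k → ℝ | |arg E z i| = t} = 0 := by
    intro i
    set P : MvPolynomial (Fin k) ℝ := (MvPolynomial.C (E : ℝ) * entP k i ^ (k + 1)) ^ 2 -
      (MvPolynomial.C (t ^ (k + 1)) * ∏ j, entP k j) ^ 2 with hP
    have hev : ∀ z, MvPolynomial.eval z P = ((E : ℝ) * extR z i ^ (k + 1)) ^ 2 -
        (t ^ (k + 1) * ∏ j, extR z j) ^ 2 := by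
      intro z
      simp only [hP, map_sub, map_pow, map_mul, MvPolynomial.eval_C, map_prod, eval_entP]
    have hP0 : P ≠ 0 := by
      obtain ⟨z, hzi, j, hzj⟩ := exists_point hk i
      intro h0
      have h1 := hev z
      rw [h0, map_zero, Finset.prod_eq_zero (Finset.mem_univ j) hzj, mul_zero] at h1
      have h2 : ((E : ℝ) * extR z i ^ (k + 1)) ^ 2 ≠ 0 := by
        have : (E : ℝ) ≠ 0 := by exact_mod_cast (by omega : E ≠ 0)
        positivity
      apply h2
      linarith [h1]
    have hQ0 : (entP k i) ≠ 0 := by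
      obtain ⟨z, hzi, j, hzj⟩ := exists_point hk i
      intro h0
      apply hzi
      rw [← eval_entP, h0, map_zero]
    have hall : ∀ᵐ z : Fin k → ℝ, ∀ j, MvPolynomial.eval z (entP k j) ≠ 0 := by
      rw [ae_all_iff]
      intro j
      refine ae_fin k (entP k j) ?_
      obtain ⟨z, hzi, j', hzj⟩ := exists_point hk j
      intro h0
      apply hzi
      rw [← eval_entP, h0, map_zero]
    have h3 : ∀ᵐ z : Fin k → ℝ, ¬ (|arg E z i| = t) := by
      filter_upwards [ae_fin k P hP0, hall] with z hz hz' habs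
      apply hz
      rw [hev, sub_eq_zero]
      have hPR : 0 < PR z := by
        unfold PR
        rw [abs_pos]
        refine Finset.prod_ne_zero_iff.2 (fun j _ => ?_)
        rw [← eval_entP]
        exact hz' j
      have hn : (0 : ℝ) < (k : ℝ) + 1 := by positivity
      have hE' : (0 : ℝ) < E := by exact_mod_cast hE
      -- `|arg| = E ^ nu * PR ^ (-nu) * |extR z i| = t`
      have h4 : t ^ (k + 1) * PR z = (E : ℝ) * |extR z i| ^ (k + 1) := by
        rw [← habs]
        unfold arg
        rw [abs_mul, abs_mul, abs_of_pos (Real.rpow_pos_of_pos hE' _),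
          abs_of_pos (Real.rpow_pos_of_pos hPR _), mul_pow, mul_pow,
          ← Real.rpow_natCast ((E : ℝ) ^ nu k), ← Real.rpow_natCast (PR z ^ (-nu k)),
          ← Real.rpow_mul hE'.le, ← Real.rpow_mul hPR.le]
        have h5 : nu k * ((k + 1 : ℕ) : ℝ) = 1 := by
          unfold nu
          push_cast
          field_simp
        have h6 : -nu k * ((k + 1 : ℕ) : ℝ) = -1 := by rw [neg_mul, h5]
        rw [h5, h6, Real.rpow_one, Real.rpow_neg_one]
        field_simp
      have h7 : ((E : ℝ) * extR z i ^ (k + 1)) ^ 2 = ((E : ℝ) * |extR z i| ^ (k + 1)) ^ 2 := by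
        rw [mul_pow, mul_pow, ← pow_mul, ← pow_mul, mul_comm (k + 1) 2, pow_mul, pow_mul, sq_abs]
      have h8 : (t ^ (k + 1) * ∏ j, extR z j) ^ 2 = (t ^ (k + 1) * PR z) ^ 2 := by
        unfold PR
        rw [mul_pow, mul_pow, sq_abs]
      rw [h7, h8, h4]
    rw [ae_iff] at h3
    simpa using h3
  refine measure_mono_null ?_ (measure_iUnion_null hnull)
  intro z hz
  obtain ⟨i, hi⟩ := hz
  exact Set.mem_iUnion.2 ⟨i, hi⟩

/-- the limit measure of the level sets of the maximum norm is `0` -/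
theorem limitMeasure_level (h : T_DIS) (k : ℕ) (hk : 2 ≤ k) (t : ℝ) :
    limitMeasure k {y | ‖y‖ = t} = 0 := by
  have hm : MeasurableSet {y : Fin (k + 1) → ℝ | ‖y‖ = t} :=
    measurableSet_eq_fun measurable_norm measurable_const
  unfold limitMeasure
  rw [Measure.sum_apply _ hm, ENNReal.tsum_eq_zero]
  intro E
  rw [Measure.smul_apply, smul_eq_mul]
  rcases Nat.eq_zero_or_pos E with h0 | h0
  · subst h0
    have hnu : (1 : ℝ) - nu k ≠ 0 := by
      unfold nu
      have : (0 : ℝ) < k := by exact_mod_cast (by omega : 0 < k)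
      have h1 : (1 : ℝ) / ((k : ℝ) + 1) < 1 := by
        rw [div_lt_one (by positivity)]; linarith
      linarith
    rw [Nat.cast_zero, Real.zero_rpow hnu, mul_zero, ENNReal.ofReal_zero, zero_mul]
  · rw [Measure.map_apply (measurable_arg E) hm]
    refine mul_eq_zero_of_right _ ?_
    refine measure_mono_null ?_ (le_antisymm ((Measure.restrict_apply_le _ _).trans
      (h k E t hk h0).le) bot_le)
    intro z hz
    have hz' : ‖arg E z‖ = t := hz
    obtain ⟨i, _, hi⟩ := Finset.exists_mem_eq_sup (Finset.univ : Finset (Fin (k + 1)))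
      ⟨0, Finset.mem_univ _⟩ (fun b => ‖arg E z b‖₊)
    refine ⟨i, ?_⟩
    rw [← hz', Pi.norm_def, hi, ← Real.norm_eq_abs]
    rfl

end Pool.Agent.H71.EQ
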