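import Pool.Agent.H71.EQ.Port
import Pool.Agent.H71.EQ.Meas
import Pool.Agent.H71.EQ.DIS

/-!
# Equidistribution of admissible `n`-tuples ordered by radical: final statement
-/

set_option autoImplicit false

open Pool.Agent.H38.AE.Statement Pool.Agent.H38.AT MeasureTheory Filter
open scoped Topology ENNReal

namespace Pool.Agent.H71.EQ

/-- Equidistribution at given `k`, `ε`, `ρ`: finiteness, bounded continuous functions, sets with
null boundary, heights. -/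
def Equi (k : ℕ) (ε ρ : ℝ) : Prop :=
  (∀ X : ℝ, 3 ≤ X → (Tuples k ε ρ X).Finite) ∧
  (∀ f : (Fin (k + 1) → ℝ) → ℝ, Continuous f → (∃ B : ℝ, ∀ y, |f y| ≤ B) →
    Tendsto (fun X : ℝ => X ^ (-(1 - nu k)) * ∑ᶠ x ∈ Tuples k ε ρ X, f (nrm x)) atTop
      (𝓝 (∫ y, f y ∂(limitMeasure k)))) ∧
  (∀ A : Set (Fin (k + 1) → ℝ), limitMeasure k (frontier A) = 0 →
    Tendsto (fun X : ℝ => X ^ (-(1 - nu k)) *
      (({x | x ∈ Tuples k ε ρ X ∧ nrm x ∈ A}.ncard : ℕ) : ℝ)) atTop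
      (𝓝 ((limitMeasure k).real A))) ∧
  (∀ t : ℝ, Tendsto (fun X : ℝ => X ^ (-(1 - nu k)) *
      (({x | x ∈ Tuples k ε ρ X ∧ (height x : ℝ) ≤ t * (rd x : ℝ) ^ nu k}.ncard : ℕ) : ℝ)) atTop
      (𝓝 ((limitMeasure k).real {y | ∀ i, |y i| ≤ t})))

/-- The limit measure is finite and not `0`; its mass is a volume times an Euler product. -/
def Mass (k : ℕ) : Prop :=
  IsFiniteMeasure (limitMeasure k) ∧
  (∀ E : ℕ, 1 ≤ E → Multipliable fun p : Nat.Primes => wloc (k + 1) p (E.factorization p)) ∧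
  ∃ κ : ℝ, 0 < κ ∧ 0 < volume.real {z : Fin k → ℝ | PR z ≤ 1} ∧
    HasProd (fun p : Nat.Primes => (cnt (k + 1) p + ((k : ℝ) + 1) * cnt k p *
      ∑ j ∈ Finset.range (k + 1), ((p : ℕ) : ℝ) ^ (-((j : ℝ) * nu k))) / ((p : ℕ) : ℝ) ^ k) κ ∧
    (limitMeasure k).real Set.univ = volume.real {z : Fin k → ℝ | PR z ≤ 1} * κ

lemma norm_le_iff' {n : ℕ} (y : Fin (n + 1) → ℝ) (t : ℝ) : ‖y‖ ≤ t ↔ ∀ i, |y i| ≤ t := by
  rcases lt_or_ge t 0 with ht | ht
  · constructor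
    · intro h
      exact absurd (norm_nonneg y) (not_le.2 (lt_of_le_of_lt h ht))
    · intro h
      exact absurd (abs_nonneg (y 0)) (not_le.2 (lt_of_le_of_lt (h 0) ht))
  · rw [pi_norm_le_iff_of_nonneg ht]
    simp only [Real.norm_eq_abs]

lemma frontier_ball_sub {n : ℕ} (t : ℝ) :
    frontier {y : Fin (n + 1) → ℝ | ∀ i, |y i| ≤ t} ⊆ {y | ‖y‖ = t} := by
  have h : {y : Fin (n + 1) → ℝ | ∀ i, |y i| ≤ t} = {y | ‖y‖ ≤ t} := by
    ext y
    exact (norm_le_iff' y t).symm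
  rw [h]
  exact frontier_le_subset_eq continuous_norm continuous_const

lemma height_le_iff {k : ℕ} (x : Fin (k + 1) → ℤ) (hx : 0 < (rd x : ℝ)) (t : ℝ) :
    (height x : ℝ) ≤ t * (rd x : ℝ) ^ nu k ↔ nrm x ∈ {y : Fin (k + 1) → ℝ | ∀ i, |y i| ≤ t} := by
  have hr : 0 < (rd x : ℝ) ^ nu k := Real.rpow_pos_of_pos hx _
  have h1 : ∀ i, |nrm x i| = (((x i).natAbs : ℕ) : ℝ) / (rd x : ℝ) ^ nu k := by
    intro i
    unfold nrm
    rw [abs_div, abs_of_pos hr, Nat.cast_natAbs, Int.cast_abs]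
  constructor
  · intro h i
    rw [h1, div_le_iff₀ hr]
    refine le_trans ?_ h
    exact_mod_cast Finset.le_sup (f := fun i => (x i).natAbs) (Finset.mem_univ i)
  · intro h
    obtain ⟨i, -, hi⟩ := Finset.exists_mem_eq_sup (Finset.univ : Finset (Fin (k + 1)))
      ⟨0, Finset.mem_univ _⟩ (fun i => (x i).natAbs)
    have h2 := h i
    rw [h1, div_le_iff₀ hr] at h2
    have h3 : height x = (x i).natAbs := hi
    rw [h3]
    exact h2

theorem equi_core (hm : T_MEA) (hd : T_DIS) (k : ℕ) (hk : 2 ≤ k) (ε ρ : ℝ)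
    (hfin : ∀ X : ℝ, 3 ≤ X → (Tuples k ε ρ X).Finite)
    (hlim : ∀ f : (Fin (k + 1) → ℝ) → ℝ, Continuous f → (∃ B : ℝ, ∀ y, |f y| ≤ B) →
      Tendsto (fun X : ℝ => X ^ (-(1 - nu k)) * ∑ᶠ x ∈ Tuples k ε ρ X, f (nrm x)) atTop
        (𝓝 (limitValue k f))) : Equi k ε ρ := by
  obtain ⟨hF, -, -, hint⟩ := hm k hk
  have hlim' : ∀ f : (Fin (k + 1) → ℝ) → ℝ, Continuous f → (∃ B : ℝ, ∀ y, |f y| ≤ B) →
      Tendsto (fun X : ℝ => X ^ (-(1 - nu k)) * ∑ᶠ x ∈ Tuples k ε ρ X, f (nrm x)) atTop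
        (𝓝 (∫ y, f y ∂(limitMeasure k))) := by
    intro f hf hB
    rw [hint f hf hB]
    exact hlim f hf hB
  have hA : ∀ A : Set (Fin (k + 1) → ℝ), limitMeasure k (frontier A) = 0 →
      Tendsto (fun X : ℝ => X ^ (-(1 - nu k)) *
        (({x | x ∈ Tuples k ε ρ X ∧ nrm x ∈ A}.ncard : ℕ) : ℝ)) atTop
        (𝓝 ((limitMeasure k).real A)) := by
    intro A hA
    refine port (limitMeasure k) (Tuples k ε ρ) nrm (fun X => X ^ (-(1 - nu k))) ?_ ?_ hlim' A hA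
    · filter_upwards [eventually_ge_atTop 0] with X hX
      exact Real.rpow_nonneg hX _
    · filter_upwards [eventually_ge_atTop 3] with X hX
      exact hfin X hX
  refine ⟨hfin, hlim', hA, ?_⟩
  intro t
  have h1 := hA {y | ∀ i, |y i| ≤ t} (measure_mono_null (frontier_ball_sub t)
    (limitMeasure_level hd k hk t))
  refine h1.congr (fun X => ?_)
  congr 2
  congr 1
  ext x
  simp only [Set.mem_ofPred_eq]
  constructor
  · rintro ⟨h2, h3⟩
    refine ⟨h2, (height_le_iff x ?_ t).2 h3⟩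
    exact_mod_cast Finset.prod_pos (fun p hp => (Nat.prime_of_mem_primeFactors hp).pos)
  · rintro ⟨h2, h3⟩
    refine ⟨h2, (height_le_iff x ?_ t).1 h3⟩
    exact_mod_cast Finset.prod_pos (fun p hp => (Nat.prime_of_mem_primeFactors hp).pos)

theorem mass_core (hm : T_MEA) (hp : T_PRD) (hk' : T_KAP) (k : ℕ) (hk : 2 ≤ k) : Mass k := by
  obtain ⟨hF, hreal, hpos, -⟩ := hm k hk
  obtain ⟨hprod, hκ⟩ := hk' k hk
  refine ⟨hF, fun E hE => (hp k E hk hE).1, _, hκ, ?_, hprod, hreal⟩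
  rw [hreal] at hpos
  exact (pos_iff_pos_of_mul_pos hpos).2 hκ

end Pool.Agent.H71.EQ
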