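import Pool.Agent.H71.EQ.Final
import Pool.Agent.H72.EQQ.Fin
import Pool.Agent.H72.EQQ.QRS
import Pool.Agent.H82.EQQ.WLY
import Pool.Agent.H82.EQQ.TLT
import Pool.Agent.H88.EQQ.LPA
import Pool.Agent.H88.EQQ.QSL
import Pool.Agent.H50.EQQ.MOB
import Pool.Agent.H40.EQQ.BDC
import Pool.Agent.H40.EQQ.FXQ
import Pool.Agent.H32.EQQ.CRB
import Pool.Agent.H35.EQQ.DEN
import Pool.Agent.H52.EQQ.SMA
import Pool.Agent.H57.EQR.PRQ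
import Pool.Agent.H57.EQR.MUH
import Pool.Agent.H80.EQQ.FEQ
import Pool.Agent.H38.EQQ.TGR
import Pool.Agent.H17.EQQ.LHQ
import Pool.Agent.H67.EQQ.SMQ
import Pool.Agent.H49.EQQ.SEQ
import Pool.Agent.H63.EQ.RHQ
import Pool.Agent.H2.EQ.HSL
import Pool.Agent.H87.EQQ.CSL
import Pool.Agent.H86.EQQ.PSL
import Pool.Agent.H30.EQQ.DFR

/-!
# Equidistribution with a power saving: assembly
-/

set_option autoImplicit false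

open Pool.Agent.H71.EQ Pool.Agent.H72.EQQ

namespace Pool.Agent.H71.EQQ

theorem seq : T_SEQ := Pool.Agent.H49.EQQ.pf_SEQ (Pool.Agent.H35.EQQ.pf_DEN prd) prd

theorem csl : T_CSL := Pool.Agent.H87.EQQ.pf_CSL
  (Pool.Agent.H2.EQ.pf_HSL (Pool.Agent.H86.EQQ.PSL.pf_PSL Pool.Agent.H88.EQQ.pf_QSL))

theorem muh : T_MUH := Pool.Agent.H57.EQR.pf_MUH csl Pool.Agent.H82.EQQ.pf_TLT seq mea nul

theorem fxq : T_FXQ := Pool.Agent.H40.EQQ.pf_FXQ pf_QRS Pool.Agent.H82.EQQ.pf_WLY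
  Pool.Agent.H88.EQQ.pf_LPA (Pool.Agent.H50.EQQ.pf_MOB chr) Pool.Agent.H40.EQQ.pf_BDC
  (Pool.Agent.H32.EQQ.pf_CRB per loc) Pool.Agent.H52.EQQ.pf_SMA
  (Pool.Agent.H57.EQR.pf_PRQ Pool.Agent.H52.EQQ.pf_SMA) prd

theorem feq : T_FEQ := Pool.Agent.H80.EQQ.pf_FEQ fxq exc'

theorem lhq : T_LHQ := pf_LHQ red (Pool.Agent.H67.EQQ.pf_SMQ ctb) Pool.Agent.H38.EQQ.r_TGQ exc' ctb

theorem rhq : T_RHQ := pf_RHQ seq prd

theorem dfr : T_DFR := Pool.Agent.H30.EQQ.pf_DFR muh mea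

theorem main' (k : ℕ) (hk : 2 ≤ k) (ε : ℝ) (hε : 0 < ε) (hε1 : ε < 1) :
    ∃ ρ δ C : ℝ, 0 < ρ ∧ 0 < δ ∧ 0 < C ∧ EquiQ k ε ρ δ C :=
  fin_core mea dis fel rhs vfn lhq feq rhq dfr k hk ε hε hε1

end Pool.Agent.H71.EQQ
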