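import Pool.Agent.H71.EQ.Parts
import Pool.Agent.H71.EQ.Core
import Pool.Agent.H40.EQ.FXG
import Pool.Agent.H12.EQ.LIM
import Pool.Agent.H63.EQ.RHS
import Pool.Agent.H49.EQ.SUM
import Pool.Agent.H1.EQ.KAP
import Pool.Agent.H57.EQR.PRD
import Pool.Agent.H50.EQ.CHR
import Pool.Agent.H62.EQ.CTP
import Pool.Agent.H35.EQ.LOC
import Pool.Agent.H95.EQ.PER
import Pool.Agent.H32.EQR.CRM
import Pool.Agent.H86.EQ.LPR
import Pool.Agent.H2.EQ.NLS
import Pool.Agent.H82.EQ.VFN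
import Pool.Agent.H80.EQ.FEL

/-!
# Equidistribution of admissible `n`-tuples ordered by radical: assembly
-/

set_option autoImplicit false

namespace Pool.Agent.H71.EQ

theorem per : T_PER := Pool.Agent.H95.EQ.pf_PER

theorem loc : T_LOC := Pool.Agent.H35.EQ.pf_LOC pf_CTP

theorem chr : T_CHR := Pool.Agent.H50.EQ.pf_CHR

theorem crm : T_CRM := Pool.Agent.H32.EQR.pf_CRM loc per

theorem prd : T_PRD := Pool.Agent.H57.EQR.pf_PRD

theorem lpr : T_LPR := Pool.Agent.H86.EQ.LPR.pf_LPR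

theorem nul : T_NUL := Pool.Agent.H2.EQ.pf_NUL

theorem vfn : T_VFN := Pool.Agent.H82.EQ.pf_VFN

theorem fxg : T_FXG := Pool.Agent.H40.EQ.pf_FXG per chr crm prd lpr

theorem fel : T_FEL := Pool.Agent.H80.EQ.pf_FEL fxg nul exc'

theorem sum' : T_SUM := Pool.Agent.H49.EQ.pf_SUM fel ctb vfn prd

theorem rhs : T_RHS := pf_RHS vfn sum' nul prd

theorem lim : T_LIM := Pool.Agent.H12.EQ.pf_LIM fel lhs rhs

theorem kap : T_KAP := Pool.Agent.H1.EQ.pf_KAP sum' prd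

theorem mea : T_MEA := pf_MEA vfn sum' prd kap

theorem dis : T_DIS := pf_DIS

theorem final (k : ℕ) (hk : 2 ≤ k) :
    (∀ ε : ℝ, 0 < ε → ε < 1 → ∃ ρ : ℝ, 0 < ρ ∧ Equi k ε ρ) ∧ Mass k := by
  refine ⟨fun ε hε hε1 => ?_, mass_core mea prd kap k hk⟩
  obtain ⟨ρ, hρ, hfin, hlim⟩ := lim k ε hk hε hε1
  exact ⟨ρ, hρ, equi_core mea dis k hk ε ρ hfin hlim⟩

end Pool.Agent.H71.EQ
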