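import Pool.Agent.H71.EQ.AllQ

/-!
# The trivial lower bound for the height
-/

set_option autoImplicit false

open Pool.Agent.H38.AE.Statement Pool.Agent.H38.AT

namespace Pool.Agent.H71.EQ

theorem low (k : ℕ) (hk : 2 ≤ k) (x : Fin (k + 1) → ℤ) (hx : Admissible x) :
    (rd x : ℝ) ^ nu k ≤ (height x : ℝ) := by
  have h := (Pool.Agent.H38.AT.glue Pool.Agent.H38.AT.aln Pool.Agent.H38.AT.al2
    Pool.Agent.H38.AT.lwn (k + 1) (by omega)).1 x hx
  have h2 : (1 : ℝ) / ((k + 1 : ℕ) : ℝ) = nu k := by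
    unfold nu
    push_cast
    rfl
  rw [h2] at h
  exact h

end Pool.Agent.H71.EQ
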