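import Pool.Agent.H38.AG.All
import Pool.Agent.H38.AT.All
import Pool.Agent.H38.AT.Glue
import Pool.Agent.H14.AS.DVB
import Pool.Agent.H68.AS.SQB
import Pool.Agent.H38.EQ.CY
import Pool.Agent.H38.EQ.DYA
import Pool.Agent.H38.EQ.SQL
import Pool.Agent.H40.EQ.BXN
import Pool.Agent.H40.EQ.SZ
import Pool.Agent.H40.EQ.ADN
import Pool.Agent.H40.EQ.TGT
import Pool.Agent.H13.EQ.SQD
import Pool.Agent.H52.EQ.SQN
import Pool.Agent.H86.EQ.SQM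
import Pool.Agent.H60.EQ.HTL
import Pool.Agent.H19.EQ.CTB
import Pool.Agent.H67.EQ.SMR
import Pool.Agent.H64.EQ.EXC
import Pool.Agent.H83.EQ.RED
import Pool.Agent.H17.EQ.LHS

/-!
# Equidistribution: the counting side
-/

set_option autoImplicit false

namespace Pool.Agent.H71.EQ

theorem at3 : T_AT3 := by
  intro ε hε
  obtain ⟨δ, C, hδ, hC, h, -⟩ := (Pool.Agent.H38.AG.glue Pool.Agent.H38.AG.gpl
    Pool.Agent.H82.RD.tfi Pool.Agent.H89.PS.pf_LOWC).2.1 ε hε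
  exact ⟨δ, C, hδ, hC, h⟩

theorem atn : T_ATN := by
  intro n hn ε hε
  obtain ⟨ρ, δ, C, hρ, hδ, hC, h⟩ := (Pool.Agent.H38.AT.glue Pool.Agent.H38.AT.aln
    Pool.Agent.H38.AT.al2 Pool.Agent.H38.AT.lwn n hn).2.1 ε hε
  exact ⟨ρ, δ, C, hρ, hδ, hC, fun X hX => ⟨(h X hX).1, (h X hX).2.1⟩⟩

theorem bxn : Pool.Agent.H38.EQ.T_BXN := Pool.Agent.H40.EQ.pf_BXN

theorem sz : Pool.Agent.H38.EQ.T_SZ :=
  Pool.Agent.H40.EQ.pf_SZ bxn (Pool.Agent.H38.EQ.pf_DYA Pool.Agent.H38.EQ.pf_CY)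

theorem adn : Pool.Agent.H38.EQ.T_ADN := Pool.Agent.H40.EQ.pf_ADN sz Pool.Agent.H14.AS.pf_DVB

theorem sqb : Pool.Agent.H82.AS.T_SQB := Pool.Agent.H68.AS.pf_SQB

theorem sqn : Pool.Agent.H38.EQ.T_SQN := Pool.Agent.H52.EQ.pf_SQN Pool.Agent.H13.EQ.pf_SQD

theorem tgt : Pool.Agent.H38.EQ.T_TGT :=
  Pool.Agent.H40.EQ.pf_TGT (Pool.Agent.H38.EQ.pf_SQL bxn sqn sqb)
    (Pool.Agent.H86.EQ.SQM.pf_SQM adn sqn sqb) (Pool.Agent.H60.EQ.pf_HTL adn sqb) sqb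

theorem exc' : T_EXC := Pool.Agent.H64.EQ.pf_EXC

theorem red : T_RED := pf_RED at3 atn

theorem ctb : T_CTB := Pool.Agent.H19.EQ.pf_CTB tgt

theorem lhs : T_LHS := pf_LHS red (Pool.Agent.H67.EQ.pf_SMR ctb) tgt exc'

end Pool.Agent.H71.EQ
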