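import Mathlib

/-!
# From bounded continuous functions to sets whose boundary is a null set
-/

set_option autoImplicit false

open MeasureTheory Filter
open scoped Topology

namespace Pool.Agent.H71.EQ

lemma port_upper {α Ω : Type*} [MeasurableSpace Ω] [PseudoEMetricSpace Ω] [OpensMeasurableSpace Ω]
    (μ : Measure Ω) [IsFiniteMeasure μ] (S : ℝ → Set α) (φ : α → Ω) (a : ℝ → ℝ)
    (ha : ∀ᶠ X in atTop, 0 ≤ a X) (hS : ∀ᶠ X in atTop, (S X).Finite)
    (h : ∀ f : Ω → ℝ, Continuous f → (∃ B : ℝ, ∀ y, |f y| ≤ B) →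
      Tendsto (fun X => a X * ∑ᶠ x ∈ S X, f (φ x)) atTop (𝓝 (∫ y, f y ∂μ)))
    (A : Set Ω) (hA : μ (frontier A) = 0) (η : ℝ) (hη : 0 < η) :
    ∀ᶠ X in atTop, a X * (({x | x ∈ S X ∧ φ x ∈ A}.ncard : ℕ) : ℝ) ≤ μ.real A + η := by
  have hcl : μ.real (closure A) = μ.real A := by
    refine le_antisymm ?_ (measureReal_mono subset_closure)
    have h1 : closure A ⊆ A ∪ frontier A := by
      intro y hy
      by_cases hyA : y ∈ interior A
      · exact Or.inl (interior_subset hyA)
      · exact Or.inr ⟨hy, hyA⟩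
    calc μ.real (closure A) ≤ μ.real (A ∪ frontier A) := measureReal_mono h1
      _ ≤ μ.real A + μ.real (frontier A) := measureReal_union_le _ _
      _ = μ.real A := by
        rw [show μ.real (frontier A) = 0 by simp [Measure.real, hA], add_zero]
  have hlim := tendsto_integral_thickenedIndicator_of_isClosed μ (isClosed_closure (s := A))
    (δs := fun n : ℕ => (1 : ℝ) / (n + 1)) (fun n => Nat.one_div_pos_of_nat)
    tendsto_one_div_add_atTop_nhds_zero_nat
  rw [hcl] at hlim
  obtain ⟨m, hm⟩ := (hlim.eventually_lt_const (show μ.real A < μ.real A + η by linarith)).exists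
  set g : Ω → ℝ := fun ω => (thickenedIndicator (Nat.one_div_pos_of_nat (α := ℝ) (n := m))
    (closure A) ω : ℝ) with hg
  have hg0 : ∀ y, 0 ≤ g y := fun y => NNReal.coe_nonneg _
  have hg1 : ∀ y, g y ≤ 1 := fun y => by
    have := thickenedIndicator_le_one (Nat.one_div_pos_of_nat (α := ℝ) (n := m)) (closure A) y
    exact NNReal.coe_le_one.2 this
  have hgc : Continuous g := by
    exact NNReal.continuous_coe.comp (BoundedContinuousFunction.continuous _)
  have hgA : ∀ y ∈ A, g y = 1 := by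
    intro y hy
    simp only [hg]
    rw [thickenedIndicator_one _ _ (subset_closure hy)]
    simp
  have h2 := h g hgc ⟨1, fun y => by rw [abs_of_nonneg (hg0 y)]; exact hg1 y⟩
  filter_upwards [h2.eventually_lt_const hm, ha, hS] with X hX haX hSX
  refine le_trans (mul_le_mul_of_nonneg_left ?_ haX) hX.le
  have hfinA : {x | x ∈ S X ∧ φ x ∈ A}.Finite := hSX.subset (fun x hx => hx.1)
  rw [finsum_mem_eq_finite_toFinset_sum _ hSX, Set.ncard_eq_toFinset_card _ hfinA]
  have hsub : hfinA.toFinset ⊆ hSX.toFinset := by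
    intro x hx
    rw [Set.Finite.mem_toFinset] at hx ⊢
    exact hx.1
  calc ((hfinA.toFinset.card : ℕ) : ℝ) = ∑ x ∈ hfinA.toFinset, g (φ x) := by
        rw [Finset.sum_congr rfl (g := fun _ => (1 : ℝ))]
        · simp
        · intro x hx
          rw [Set.Finite.mem_toFinset] at hx
          exact hgA _ hx.2
    _ ≤ ∑ x ∈ hSX.toFinset, g (φ x) :=
        Finset.sum_le_sum_of_subset_of_nonneg hsub (fun x _ _ => hg0 _)

theorem port {α Ω : Type*} [MeasurableSpace Ω] [PseudoEMetricSpace Ω] [OpensMeasurableSpace Ω]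
    (μ : Measure Ω) [IsFiniteMeasure μ] (S : ℝ → Set α) (φ : α → Ω) (a : ℝ → ℝ)
    (ha : ∀ᶠ X in atTop, 0 ≤ a X) (hS : ∀ᶠ X in atTop, (S X).Finite)
    (h : ∀ f : Ω → ℝ, Continuous f → (∃ B : ℝ, ∀ y, |f y| ≤ B) →
      Tendsto (fun X => a X * ∑ᶠ x ∈ S X, f (φ x)) atTop (𝓝 (∫ y, f y ∂μ)))
    (A : Set Ω) (hA : μ (frontier A) = 0) :
    Tendsto (fun X => a X * (({x | x ∈ S X ∧ φ x ∈ A}.ncard : ℕ) : ℝ)) atTop
      (𝓝 (μ.real A)) := by
  have hcompl : μ.real Aᶜ = μ.real Set.univ - μ.real A := by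
    have hn : NullMeasurableSet A μ := by
      refine (isOpen_interior (s := A)).measurableSet.nullMeasurableSet.congr ?_
      refine (ae_iff.2 (measure_mono_null ?_ hA) : ∀ᵐ y ∂μ, (y ∈ interior A) = (y ∈ A))
      intro y hy
      by_contra hfr
      apply hy
      refine propext ⟨fun h => interior_subset h, fun hyA => ?_⟩
      by_contra hi
      exact hfr ⟨subset_closure hyA, hi⟩
    unfold Measure.real
    rw [measure_compl₀ hn (measure_ne_top μ A), ENNReal.toReal_sub_of_le
      (measure_mono (Set.subset_univ _)) (measure_ne_top μ _)]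
  have hone := h (fun _ => 1) continuous_const ⟨1, fun y => by simp⟩
  rw [integral_const, smul_eq_mul, mul_one] at hone
  rw [tendsto_order]
  constructor
  · intro b hb
    have hη : 0 < (μ.real A - b) / 3 := by linarith
    filter_upwards [port_upper μ S φ a ha hS h Aᶜ (by rw [frontier_compl]; exact hA) _ hη,
      (tendsto_order.1 hone).1 (μ.real Set.univ - (μ.real A - b) / 3) (by linarith), hS, ha]
      with X h1 h2 hSX haX
    rw [hcompl] at h1
    have hsplit : a X * ∑ᶠ x ∈ S X, (1 : ℝ) =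
        a X * (({x | x ∈ S X ∧ φ x ∈ A}.ncard : ℕ) : ℝ) +
        a X * (({x | x ∈ S X ∧ φ x ∈ Aᶜ}.ncard : ℕ) : ℝ) := by
      rw [← mul_add]
      congr 1
      have hd : Disjoint {x | x ∈ S X ∧ φ x ∈ A} {x | x ∈ S X ∧ φ x ∈ Aᶜ} := by
        rw [Set.disjoint_left]
        intro x hx hx'
        exact hx'.2 hx.2
      have hu : S X = {x | x ∈ S X ∧ φ x ∈ A} ∪ {x | x ∈ S X ∧ φ x ∈ Aᶜ} := by
        ext x
        simp only [Set.mem_union, Set.mem_ofPred_eq, Set.mem_compl_iff]
        tauto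
      have hc := Set.ncard_union_eq hd (hSX.subset (fun x hx => hx.1))
        (hSX.subset (fun x hx => hx.1))
      rw [← hu] at hc
      rw [← Nat.cast_add, ← hc, finsum_mem_eq_finite_toFinset_sum _ hSX,
        Set.ncard_eq_toFinset_card _ hSX]
      simp
    rw [hsplit] at h2
    linarith
  · intro b hb
    filter_upwards [port_upper μ S φ a ha hS h A hA ((b - μ.real A) / 2) (by linarith)] with X hX
    linarith

end Pool.Agent.H71.EQ
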